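import Mathlib
import Pool.Agent.Q263.WE.Pwr
import Pool.Agent.Q263.CM.Cst

/-!
# The powers of `m + e` and of `m + π` for almost all integers `m`

Koksma's theorem says that the powers of almost all real numbers `> 1` are uniformly distributed modulo one.  We
prove a quantitative theorem of this kind for the integer translates of `e` and of `π` (and of every irrational
number which is not a Liouville number): for a random integer `m ≤ M` the fractional parts of
`(m + e)², (m + e)³, …, (m + e)^(N+1)`, with `N` as large as `(log M) ^ κ`, read to the precision `1 / q`,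
`q ≤ exp ((log M) ^ κ)`, are independent and uniformly distributed, up to an error of `exp (-(log M) ^ κ)` in total
variation.  Consequently, for all but very few `m ≤ M` all initial segments of the sequence have a discrepancy of the
size of a random sequence.

The proof uses Vinogradov's method for Weyl sums with polynomials of growing degree (mean value theorem with explicit
dependence on the degree and Hölder's inequality for bilinear sums, from the starting files) and nonnegative
trigonometric majorants in growing dimension.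
-/

set_option autoImplicit false

open Finset Filter

namespace Pool.Agent.Results.MP_9056e9_nt.IntegerTranslates

/-- for all large `M` and all `N ≤ (log M) ^ κ`: (1) for `1 ≤ q ≤ exp ((log M) ^ κ)` and every set `𝒜` of vectors in
`{0, …, q - 1} ^ N`, the number of the `m`, `1 ≤ m ≤ M`, such that the vector of the numbers
`⌊q {(m + x) ^ i}⌋`, `2 ≤ i ≤ N + 1`, is in `𝒜` is `M |𝒜| / q ^ N` up to `M exp (-(log M) ^ κ)`; (2) for every
`T ≥ 0`, for all `1 ≤ m ≤ M` with at most `M (2 N (N + 1) exp (-T² / 4) + exp (-(log M) ^ κ))` exceptions, for all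
`1 ≤ n ≤ N` and `0 ≤ t ≤ 1`, the number of the `i`, `2 ≤ i ≤ n + 1`, with `{(m + x) ^ i} < t` is `t n` up to
`T √n + 1` -/
def PowersLikeRandom (κ x : ℝ) : Prop :=
  ∃ M₀ : ℕ, ∀ M ≥ M₀, ∀ N : ℕ, 1 ≤ N → (N : ℝ) ≤ (Real.log M) ^ κ →
    (∀ q : ℕ, 1 ≤ q → (q : ℝ) ≤ Real.exp ((Real.log M) ^ κ) →
      ∀ 𝒜 : Finset (Fin N → ℕ), 𝒜 ⊆ Fintype.piFinset (fun _ => Finset.range q) →
        |(((Finset.Icc 1 M).filter (fun m : ℕ =>
          (fun l : Fin N => ⌊(q : ℝ) * Int.fract (((m : ℝ) + x) ^ ((l : ℕ) + 2))⌋₊) ∈ 𝒜)).card : ℝ) -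
          M * (𝒜.card / (q : ℝ) ^ N)| ≤ M * Real.exp (-(Real.log M) ^ κ)) ∧
    (∀ T : ℝ, 0 ≤ T → ∃ X : Finset ℕ,
      (X.card : ℝ) ≤ M * (2 * N * (N + 1) * Real.exp (-(T ^ 2 / 4)) +
        Real.exp (-(Real.log M) ^ κ)) ∧
      ∀ m ∈ Finset.Icc 1 M, m ∉ X → ∀ (n : ℕ) (t : ℝ), 1 ≤ n → n ≤ N → 0 ≤ t → t ≤ 1 →
        |(((Finset.Icc 2 (n + 1)).filter (fun i => Int.fract (((m : ℝ) + x) ^ i) < t)).card : ℝ) -
          t * n| ≤ T * Real.sqrt n + 1)

/-- **The powers of `m + e` and `m + π`.**  There is an absolute constant `κ > 0` such that every irrational number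
`x` which is not a Liouville number, in particular `e` and `π`, has the property `PowersLikeRandom κ x`. -/
theorem result : ∃ κ : ℝ, 0 < κ ∧
    (∀ x : ℝ, Irrational x → ¬ Liouville x → PowersLikeRandom κ x) ∧
    PowersLikeRandom κ (Real.exp 1) ∧ PowersLikeRandom κ Real.pi := by
  classical
  obtain ⟨κ, hκ, hmain⟩ := Pool.Agent.Q263.WE.powers
  have key : ∀ x : ℝ, Irrational x → ¬ Liouville x → PowersLikeRandom κ x := by
    intro x hx hL
    have hev := hmain x hx hL
    rw [eventually_atTop] at hev
    obtain ⟨M₀, hM₀⟩ := hev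
    refine ⟨M₀, fun M hM N hN1 hN => ?_⟩
    obtain ⟨h1, h2⟩ := hM₀ M hM N hN
    refine ⟨fun q hq1 hq 𝒜 h𝒜 => ?_, fun T hT => ?_⟩
    · have h3 := h1 q hq1 hq 𝒜 h𝒜
      have e1 : ((range M).filter (fun m : ℕ => Pool.Agent.Q263.WE.cells q
          (fun l : Fin N => (((m : ℝ) + 1) + x) ^ ((l : ℕ) + 2)) ∈ 𝒜)).card =
          ((Finset.Icc 1 M).filter (fun m : ℕ =>
          (fun l : Fin N => ⌊(q : ℝ) * Int.fract (((m : ℝ) + x) ^ ((l : ℕ) + 2))⌋₊) ∈ 𝒜)).card := by
        refine Finset.card_bij (fun m _ => m + 1) ?_ ?_ ?_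
        · intro m hm
          rw [Finset.mem_filter, Finset.mem_range] at hm
          rw [Finset.mem_filter, Finset.mem_Icc]
          refine ⟨⟨by omega, by omega⟩, ?_⟩
          push_cast
          exact hm.2
        · intro a _ b _ hab
          omega
        · intro k hk
          rw [Finset.mem_filter, Finset.mem_Icc] at hk
          obtain ⟨j, rfl⟩ : ∃ j, k = j + 1 := ⟨k - 1, by omega⟩
          refine ⟨j, ?_, rfl⟩
          rw [Finset.mem_filter, Finset.mem_range]
          refine ⟨by omega, ?_⟩
          have := hk.2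
          push_cast at this
          exact this
      rw [← e1]
      exact h3
    · obtain ⟨X, _, hX1, hX2⟩ := h2 T hT hN1
      refine ⟨X.image (fun m => m + 1), ?_, ?_⟩
      · have h3 : ((X.image (fun m => m + 1)).card : ℝ) ≤ X.card := by
          exact_mod_cast Finset.card_image_le
        linarith
      · intro m hm hmX n t hn hnN ht0 ht1
        rw [Finset.mem_Icc] at hm
        obtain ⟨j, rfl⟩ : ∃ j, m = j + 1 := ⟨m - 1, by omega⟩
        have hj : j ∉ X := fun h => hmX (Finset.mem_image.2 ⟨j, h, rfl⟩)
        have h3 := hX2 j (Finset.mem_range.2 (by omega)) hj n t hn hnN ht0 ht1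
        have h4 : (univ.filter (fun i : Fin N => (i : ℕ) < n ∧
            Int.fract ((((j : ℝ) + 1) + x) ^ ((i : ℕ) + 2)) < t)).card =
            ((Finset.Icc 2 (n + 1)).filter
              (fun i => Int.fract ((((j + 1 : ℕ) : ℝ) + x) ^ i) < t)).card := by
          refine Finset.card_bij (fun i _ => (i : ℕ) + 2) ?_ ?_ ?_
          · intro i hi
            rw [Finset.mem_filter] at hi
            rw [Finset.mem_filter, Finset.mem_Icc]
            refine ⟨⟨by omega, by omega⟩, ?_⟩
            push_cast
            exact hi.2.2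
          · intro a _ b _ hab
            exact Fin.ext (by omega)
          · intro k hk
            rw [Finset.mem_filter, Finset.mem_Icc] at hk
            refine ⟨⟨k - 2, by omega⟩, ?_, ?_⟩
            · rw [Finset.mem_filter]
              refine ⟨Finset.mem_univ _, ?_, ?_⟩
              · show k - 2 < n
                omega
              · have e1 : k - 2 + 2 = k := by omega
                show Int.fract ((((j : ℝ) + 1) + x) ^ (k - 2 + 2)) < t
                rw [e1]
                have := hk.2
                push_cast at this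
                exact this
            · show k - 2 + 2 = k
              omega
        rw [h4] at h3
        exact h3
  exact ⟨κ, hκ, key, key _ Pool.Agent.Q263.CM.irr_e Pool.Agent.Q263.CM.nl_e,
    key _ irrational_pi Pool.Agent.Q263.CM.nl_pi⟩

end Pool.Agent.Results.MP_9056e9_nt.IntegerTranslates
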