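import Pool.Agent.Q83.NP.J

/-!
# MP_9056e9_nt: the powers of e and of pi after a sparse re-randomisation of their digits

`noise d T` is the law of a sequence of independent base `b` digits, uniform at the places in `T`
and equal to the prescribed digits `d` at the other places.  `Recurs b c T` says that `T` has an
element in `[x, x + c log_b x]` for all large `x`; such `T` may have density zero.
-/

set_option autoImplicit false

open MeasureTheory Filter Topology Finset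
open Q83.NP

namespace Pool.Agent.Results.MP_9056e9_nt.NoisyPowers

open Classical in
theorem result (b : ℕ) [NeZero b] (hb : 2 ≤ b) :
    (∀ c : ℝ, 0 < c → ∃ T : Set ℕ, Recurs b c T ∧
      Tendsto (fun N : ℕ => (#{t ∈ range N | t ∈ T} : ℝ) / N) atTop (𝓝 0)) ∧
    ∀ (c : ℝ) (T : Set ℕ), c < 1 / 2 → Recurs b c T →
      (∀ (d : ℕ → Fin b) (x r ξ : ℝ) (n : ℕ → ℕ), r ≠ 0 → ξ ≠ 0 → StrictMono n →
        ∀ᵐ ω ∂(noise d T), (∀ i ∉ T, ω i = d i) ∧ (1 < x + r * Real.ofDigits ω →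
          Equi (fun j => ξ * (x + r * Real.ofDigits ω) ^ n j) ∧
          ∀ h : ℤ, h ≠ 0 → ∃ C : ℝ, ∀ N : ℕ,
            ‖∑ j ∈ range N, Complex.exp (2 * Real.pi * Complex.I *
              ((h * (ξ * (x + r * Real.ofDigits ω) ^ n j) : ℝ) : ℂ))‖ ≤
                C * (Real.sqrt N * Real.log (N + 1) ^ 2))) ∧
      (∀ x₀ : ℝ, 2 ≤ x₀ → x₀ = ⌊x₀⌋ + Real.ofDigits (Real.digits (Int.fract x₀) b) ∧
        ∀ᵐ ω ∂(noise (Real.digits (Int.fract x₀) b) T),
          (∀ i ∉ T, ω i = Real.digits (Int.fract x₀) b i) ∧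
          Equi (fun j => (⌊x₀⌋ + Real.ofDigits ω) ^ (j + 1))) := by
  have hee : ∀ t : ℝ, Pool.Agent.H493R3.ee t = Complex.exp (2 * Real.pi * Complex.I * (t : ℂ)) := by
    intro t
    unfold Pool.Agent.H493R3.ee
    congr 1; ring
  refine ⟨fun c hc => exists_sparse b hb c hc, fun c T hc hT => ?_⟩
  have key : ∀ (d : ℕ → Fin b) (x r ξ : ℝ) (n : ℕ → ℕ), r ≠ 0 → ξ ≠ 0 → StrictMono n →
        ∀ᵐ ω ∂(noise d T), (∀ i ∉ T, ω i = d i) ∧ (1 < x + r * Real.ofDigits ω →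
          Equi (fun j => ξ * (x + r * Real.ofDigits ω) ^ n j) ∧
          ∀ h : ℤ, h ≠ 0 → ∃ C : ℝ, ∀ N : ℕ,
            ‖∑ j ∈ range N, Complex.exp (2 * Real.pi * Complex.I *
              ((h * (ξ * (x + r * Real.ofDigits ω) ^ n j) : ℝ) : ℂ))‖ ≤
                C * (Real.sqrt N * Real.log (N + 1) ^ 2)) := by
    intro d x r ξ n hr hξ hn
    filter_upwards [noise_off hb d T, cancel hb d T c hc hT x r ξ hr hξ n hn] with ω h1 h2
    refine ⟨h1, fun hβ => ?_⟩
    have h3 : ∀ h : ℤ, h ≠ 0 → ∃ C : ℝ, ∀ N : ℕ,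
        ‖∑ j ∈ range N, Pool.Agent.H493R3.ee (h * (ξ * (x + r * Real.ofDigits ω) ^ n j))‖ ≤
          C * (Real.sqrt N * Real.log (N + 1) ^ 2) := by
      intro h hh
      obtain ⟨C, hC⟩ := h2 hβ h hh
      refine ⟨C, fun N => ?_⟩
      have := hC N
      simp_rw [mul_assoc] at this
      exact this
    refine ⟨equi_of_bound _ h3, fun h hh => ?_⟩
    obtain ⟨C, hC⟩ := h3 h hh
    refine ⟨C, fun N => ?_⟩
    have := hC N
    simp_rw [hee] at this
    exact this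
  refine ⟨key, fun x₀ hx₀ => ?_⟩
  have hx1 : x₀ = ⌊x₀⌋ + Real.ofDigits (Real.digits (Int.fract x₀) b) := by
    rw [Real.ofDigits_digits (by omega) ⟨Int.fract_nonneg x₀, Int.fract_lt_one x₀⟩]
    exact (Int.floor_add_fract x₀).symm
  refine ⟨hx1, ?_⟩
  have hfl : (2 : ℝ) ≤ ⌊x₀⌋ := by
    have : (2 : ℤ) ≤ ⌊x₀⌋ := Int.le_floor.2 (by exact_mod_cast hx₀)
    exact_mod_cast this
  filter_upwards [key (Real.digits (Int.fract x₀) b) ⌊x₀⌋ 1 1 (fun j => j + 1) one_ne_zero one_ne_zero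
    (fun a a' h => Nat.add_lt_add_right h 1)] with ω hω
  refine ⟨hω.1, ?_⟩
  have h0 := Real.ofDigits_nonneg ω
  have h1 := (hω.2 (by linarith)).1
  simpa only [one_mul] using h1

end Pool.Agent.Results.MP_9056e9_nt.NoisyPowers
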