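import Pool.Agent.Q270.VS.Ge

/-!
# The sequences `e ^ j / m`, `π ^ j / m`, `ξ x ^ j / m` for almost all integers `m`

Almost square root discrepancy in all windows of `j` with `m ^ (1 + ε) ≤ x ^ j` and
`x ^ j ≤ exp ((log m) ^ (1 + δ))`, simultaneously for all pairs `(ξ, x)` of a large finite set.
-/

set_option autoImplicit false

namespace Pool.Agent.Results.MP_9056e9_nt.QuotientsByIntegers

open Finset Filter Topology

/-- the number of the `j` with `s ≤ j < s + n` for which the fractional part of `y j` lies in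
`[u, v)` -/
noncomputable def visits (y : ℕ → ℝ) (s n : ℕ) (u v : ℝ) : ℕ :=
  ((Ico s (s + n)).filter (fun j => u ≤ Int.fract (y j) ∧ Int.fract (y j) < v)).card

theorem result : ∃ δ : ℝ, 0 < δ ∧ ∀ ε c : ℝ, 0 < ε → 0 < c → ∃ κ : ℝ, 0 < κ ∧
    ∀ᶠ N : ℕ in atTop, ∀ S : Finset (ℝ × ℝ), (S.card : ℝ) ≤ Real.exp ((Real.log N) ^ κ) →
      (∀ p ∈ S, 1 ≤ |p.1| ∧ |p.1| ≤ N ∧ 1 + c ≤ p.2) →
      ∃ B : Finset ℕ, (B.card : ℝ) ≤ N * Real.exp (-(Real.log N) ^ κ) ∧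
        ∀ m, 1 ≤ m → m ≤ N → m ∉ B → ∀ ξ x : ℝ, (ξ, x) ∈ S → ∀ s n : ℕ,
          (N : ℝ) ^ (1 + ε) ≤ x ^ s → x ^ (s + n) ≤ Real.exp ((Real.log N) ^ (1 + δ)) →
          ∀ u v : ℝ, 0 ≤ u → u ≤ v → v ≤ 1 →
            |(visits (fun j => ξ * x ^ j / m) s n u v : ℝ) - n * (v - u)| ≤
              √(n : ℝ) * (Real.log N) ^ ε := by
  obtain ⟨δ, hδ, hgeo⟩ := Pool.Agent.Q270.VS.geoN
  refine ⟨δ, hδ, ?_⟩
  intro ε c hε hc
  obtain ⟨κ, hκ, hgeo⟩ := hgeo (-1) (fun n h => by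
    have : (0 : ℝ) ≤ n := Nat.cast_nonneg n
    linarith) ε c hε hc
  refine ⟨κ, hκ, ?_⟩
  filter_upwards [hgeo, eventually_ge_atTop 2] with N hN h2
  intro S hS hSx
  have hN1 : (1 : ℝ) ≤ N := by exact_mod_cast (by omega : 1 ≤ N)
  have hNp : (0 : ℝ) < N := by linarith
  obtain ⟨B, hBc, hB⟩ := hN S hS hSx
  refine ⟨B, hBc, ?_⟩
  intro m hm1 hm2 hmB ξ x hx s n hs hn u v hu huv hv
  have hx1 : 0 ≤ x := by
    have := (hSx _ hx).2.2
    simp only at this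
    linarith
  have hNinv : (N : ℝ) ^ (-1 : ℝ) = (N : ℝ)⁻¹ := Real.rpow_neg_one _
  have h6 := hB m hm1 hm2 hmB (ξ, x) hx s n (by
      simp only
      rw [hNinv, ← div_eq_mul_inv, le_div_iff₀ hNp]
      refine le_trans (le_of_eq ?_) hs
      rw [add_comm, Real.rpow_add hNp, Real.rpow_one]) (by
      simp only
      rw [hNinv]
      refine le_trans ?_ hn
      refine mul_le_of_le_one_right (pow_nonneg hx1 _) ?_
      exact inv_le_one_of_one_le₀ hN1) u v hu huv hv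
  refine le_trans (le_of_eq ?_) h6
  have h7 : ∀ j : ℕ, ξ * x ^ j / m = ξ * x ^ j * (m : ℝ) ^ (-1 : ℝ) := by
    intro j
    rw [Real.rpow_neg_one, div_eq_mul_inv]
  unfold visits Pool.Agent.Q270.VS.cn
  simp only [h7]

end Pool.Agent.Results.MP_9056e9_nt.QuotientsByIntegers
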