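import Pool.Agent.Q197.PS.E

/-! # Powers modulo one along random unions of residue classes of exponents

Let `Θ` be any set of real numbers, for instance `{e}`, `{π}` or `{e, π}`. All the sequences
`θ ^ (a + q m)`, `m ≥ 0`, `θ ∈ Θ`, are equidistributed modulo one as soon as, for arbitrarily
divisible `P`, a proportion `K / √P` (any `K`) of the `2 ^ P` unions `A` of residue classes of
exponents modulo `P` is such that the sequences `θ ^ n`, `n ∈ A`, are equidistributed for all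
`θ ∈ Θ`. If for one `θ ∈ Θ` and one interval the proportion of the `n ≤ N` with `θ ^ n` in the
interval modulo one is wrong by at least `c` for infinitely many `N`, then for every `P` at most a
proportion `(10 + 54 / c) / √P` of the unions have this property. Unconditionally, for all but a
proportion `|S| / t ^ 2` of the unions the error in the union is half the error for all `n ≤ N`, up
to `t N / √P`, for all the pairs `(θ, interval)` of a finite set `S`. -/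

set_option autoImplicit false

open Finset Filter Topology

namespace Pool.Agent.Results.MP_9056e9_nt.UnionsOfClasses

open Classical in
/-- The number of the `1 ≤ n ≤ N` with `n mod P ∈ A` such that the fractional part of `θ ^ n` is in
`[a, b)`. -/
noncomputable def count (θ a b : ℝ) (P : ℕ) (A : Finset ℕ) (N : ℕ) : ℕ :=
  ((Icc 1 N).filter (fun n => n % P ∈ A ∧ Int.fract (θ ^ n) ∈ Set.Ico a b)).card

/-- The number of the `1 ≤ n ≤ N` with `n mod P ∈ A`. -/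
def size (P : ℕ) (A : Finset ℕ) (N : ℕ) : ℕ := ((Icc 1 N).filter (fun n => n % P ∈ A)).card

/-- For every `θ` in `Θ` the sequence of the `θ ^ n`, `n mod P ∈ A`, is equidistributed modulo one:
the interval `[a, b)` receives `(b - a) |A| / P * N + o(N)` of the terms with `n ≤ N`. -/
def Equi (Θ : Set ℝ) (P : ℕ) (A : Finset ℕ) : Prop :=
  ∀ θ ∈ Θ, ∀ a b : ℝ, 0 ≤ a → a < b → b ≤ 1 →
    Tendsto (fun N : ℕ => (count θ a b P A N : ℝ) / N) atTop (𝓝 ((b - a) * A.card / P))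

open Classical in
/-- The number of the sets `A` of residues modulo `P` with this property. -/
noncomputable def good (Θ : Set ℝ) (P : ℕ) : ℕ := ((range P).powerset.filter (fun A => Equi Θ P A)).card

/-- the index set: a number and an interval -/
def Ind (Θ : Set ℝ) : Type := {x : ℝ × ℝ × ℝ // x.1 ∈ Θ ∧ 0 ≤ x.2.1 ∧ x.2.1 < x.2.2 ∧ x.2.2 ≤ 1}

/-- the sets -/
def ev (Θ : Set ℝ) (s : Ind Θ) (n : ℕ) : Prop := Int.fract (s.1.1 ^ n) ∈ Set.Ico s.1.2.1 s.1.2.2

/-- their densities -/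
def be (Θ : Set ℝ) (s : Ind Θ) : ℝ := s.1.2.2 - s.1.2.1

lemma be_le (Θ : Set ℝ) (s : Ind Θ) : 0 ≤ be Θ s ∧ be Θ s ≤ 1 := by
  obtain ⟨x, h1, h2, h3, h4⟩ := s
  unfold be
  constructor <;> simp only <;> linarith

lemma count_eq (Θ : Set ℝ) (s : Ind Θ) (P : ℕ) (A : Finset ℕ) (N : ℕ) :
    (count s.1.1 s.1.2.1 s.1.2.2 P A N : ℝ) / N = Q197.PS.densA (ev Θ s) P A N := by
  unfold count Q197.PS.densA ev
  refine congrArg (fun s : Finset ℕ => (s.card : ℝ) / N) ?_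
  ext n
  simp only [mem_filter]

lemma equi_eq (Θ : Set ℝ) (P : ℕ) (A : Finset ℕ) :
    Equi Θ P A ↔ Q197.PS.Good (ev Θ) (be Θ) P A := by
  unfold Equi Q197.PS.Good Q197.PS.Dens
  constructor
  · intro h s
    have h1 := h s.1.1 s.2.1 s.1.2.1 s.1.2.2 s.2.2.1 s.2.2.2.1 s.2.2.2.2
    refine h1.congr fun N => ?_
    rw [count_eq Θ s]
  · intro h θ hθ a b ha hab hb
    have h1 := h ⟨(θ, a, b), hθ, ha, hab, hb⟩
    refine h1.congr fun N => ?_
    rw [← count_eq Θ ⟨(θ, a, b), hθ, ha, hab, hb⟩]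

lemma good_eq (Θ : Set ℝ) (P : ℕ) : good Θ P = Q197.PS.nGood (ev Θ) (be Θ) P := by
  classical
  unfold good Q197.PS.nGood
  simp only [equi_eq]

open Classical in
theorem result (Θ : Set ℝ) :
    ((∀ q : ℕ, 0 < q → ∀ r < q, Equi Θ q {r}) ↔
      ∀ q : ℕ, 0 < q → ∀ K : ℝ, ∃ P : ℕ, 0 < P ∧ q ∣ P ∧ K * 2 ^ P / √P ≤ good Θ P) ∧
    (∀ θ ∈ Θ, ∀ a b c : ℝ, 0 ≤ a → a < b → b ≤ 1 → 0 < c →
      (∃ᶠ N : ℕ in atTop, c ≤ |(count θ a b 1 {0} N : ℝ) / N - (b - a)|) →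
      ∀ P : ℕ, 0 < P → (good Θ P : ℝ) ≤ (10 + 54 / c) * 2 ^ P / √P) ∧
    (∀ S : Finset (ℝ × ℝ × ℝ), (∀ s ∈ S, s.1 ∈ Θ ∧ 0 ≤ s.2.1 ∧ s.2.1 < s.2.2 ∧ s.2.2 ≤ 1) →
      ∀ P N : ℕ, 0 < P → P ≤ N → ∀ t : ℝ, 0 < t →
      (((range P).powerset.filter (fun A => ¬ ∀ s ∈ S,
        |((count s.1 s.2.1 s.2.2 P A N : ℝ) / N - (s.2.2 - s.2.1) * ((size P A N : ℝ) / N)) -
          ((count s.1 s.2.1 s.2.2 1 {0} N : ℝ) / N - (s.2.2 - s.2.1)) / 2| < t / √P)).card : ℝ) ≤
        S.card * (2 ^ P / t ^ 2)) := by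
  refine ⟨?_, ?_, ?_⟩
  · have h := Q197.PS.good_iff (ev Θ) (be Θ) (be_le Θ)
    simp only [good_eq, equi_eq]
    exact h
  · intro θ hθ a b c ha hab hb hc hfr P hP
    rw [good_eq]
    refine Q197.PS.nGood_few (ev Θ) (be Θ) (be_le Θ) ⟨(θ, a, b), hθ, ha, hab, hb⟩ hc ?_ hP
    refine hfr.mono fun N hN => ?_
    have h1 := count_eq Θ ⟨(θ, a, b), hθ, ha, hab, hb⟩ 1 {0} N
    rw [← h1]
    exact hN
  · intro S hS P N hP hN t ht
    have hsub : ((range P).powerset.filter (fun A => ¬ ∀ s ∈ S,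
        |((count s.1 s.2.1 s.2.2 P A N : ℝ) / N - (s.2.2 - s.2.1) * ((size P A N : ℝ) / N)) -
          ((count s.1 s.2.1 s.2.2 1 {0} N : ℝ) / N - (s.2.2 - s.2.1)) / 2| < t / √P)) ⊆
        S.biUnion (fun s => (range P).powerset.filter (fun A =>
        t / √P ≤ |((count s.1 s.2.1 s.2.2 P A N : ℝ) / N - (s.2.2 - s.2.1) * ((size P A N : ℝ) / N)) -
          ((count s.1 s.2.1 s.2.2 1 {0} N : ℝ) / N - (s.2.2 - s.2.1)) / 2|)) := by
      intro A hA
      rw [mem_filter] at hA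
      obtain ⟨h1, h2⟩ := hA
      push Not at h2
      obtain ⟨s, hs, h3⟩ := h2
      rw [mem_biUnion]
      exact ⟨s, hs, mem_filter.2 ⟨h1, h3⟩⟩
    calc _ ≤ ((S.biUnion (fun s => (range P).powerset.filter (fun A =>
        t / √P ≤ |((count s.1 s.2.1 s.2.2 P A N : ℝ) / N - (s.2.2 - s.2.1) * ((size P A N : ℝ) / N)) -
          ((count s.1 s.2.1 s.2.2 1 {0} N : ℝ) / N - (s.2.2 - s.2.1)) / 2|))).card : ℝ) := by
          exact_mod_cast card_le_card hsub
      _ ≤ ∑ s ∈ S, (((range P).powerset.filter (fun A =>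
        t / √P ≤ |((count s.1 s.2.1 s.2.2 P A N : ℝ) / N - (s.2.2 - s.2.1) * ((size P A N : ℝ) / N)) -
          ((count s.1 s.2.1 s.2.2 1 {0} N : ℝ) / N - (s.2.2 - s.2.1)) / 2|)).card : ℝ) := by
          exact_mod_cast card_biUnion_le
      _ ≤ ∑ s ∈ S, (2 ^ P / t ^ 2 : ℝ) := by
          refine sum_le_sum fun s hs => ?_
          have hs' := hS s hs
          have h := Q197.PS.dens_typical (ev Θ ⟨s, hs'⟩) (be_le Θ ⟨s, hs'⟩).1 (be_le Θ ⟨s, hs'⟩).2 hP hN ht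
          have e1 : ∀ P' A', Q197.PS.densA (ev Θ ⟨s, hs'⟩) P' A' N =
              (count s.1 s.2.1 s.2.2 P' A' N : ℝ) / N := fun P' A' => (count_eq Θ ⟨s, hs'⟩ P' A' N).symm
          simp only [e1] at h
          exact h
      _ = S.card * (2 ^ P / t ^ 2) := by rw [sum_const, nsmul_eq_mul]

end Pool.Agent.Results.MP_9056e9_nt.UnionsOfClasses
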